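import Pool.Agent.Q216.ZD.All

set_option autoImplicit false

/-!
MP_57825d_lc, Q1 (degree invariant solutions to Post's problem), a result in the positive
direction: for any finite number of commuting computable bijections `T c` of the Cantor space
there is one index `e` such that `X <_T W_e^X <_T X'` for every set `X` and
`W_e^X ≡_T W_e^{T c X}` for every `X` and every `c`.
-/

namespace Pool.Agent.Results.MP_57825d_lc.CommutingHomeomorphisms

open Pool.Agent.Helper227 Pool.Agent.H548R2.Post Pool.Agent.Q216.ZD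
open Nat.Partrec (Code)
open Pool.Agent.TH769.TP (Via)

theorem result (d : ℕ) (T : Fin d → (ℕ → Bool) → ℕ → Bool)
    (hb : ∀ c, Function.Bijective (T c)) (hT : ∀ c, ∃ i : Code, ∀ X, Via i X (T c X))
    (hc : ∀ c c' X, T c (T c' X) = T c' (T c X)) :
    ∃ e : ℕ,
      (∀ X, TLe X (chr (WE X e)) ∧ ¬ TLe (chr (WE X e)) X ∧ TLe (chr (WE X e)) (jump X) ∧
        ¬ TLe (jump X) (chr (WE X e)) ∧ TLe (jump (chr (WE X e))) (jump X)) ∧
      ∀ c X, TLe (chr (WE X e)) (chr (WE (T c X) e)) ∧ TLe (chr (WE (T c X) e)) (chr (WE X e)) :=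
  comm_bij t_PROG t_ACT Pool.Agent.Q124.ZD.Patch.t_PATCH Pool.Agent.Q184.ZD.t_CNT
    Pool.Agent.Q125.ZD.t_FULL Pool.Agent.Q125.ZD.t_COMM a_EQ a_STEP a_BACK a_INIT a_DEG
    Pool.Agent.Q124.ZD.t_DEC a_INVC d T hb hT hc

end Pool.Agent.Results.MP_57825d_lc.CommutingHomeomorphisms
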