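import Pool.Agent.Q216.ZD.All

set_option autoImplicit false

/-!
MP_57825d_lc, Q1 (degree invariant solutions to Post's problem), a result in the positive
direction: solutions which are invariant along the orbits of a finitely generated group of
computable homeomorphisms of the Cantor space whose growth function has the doubling property,
at the points with trivial stabilizers, or with normal and decidable stabilizers.
-/

namespace Pool.Agent.Results.MP_57825d_lc.PolynomialGrowthOrbits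

open Pool.Agent.Helper227 Pool.Agent.H548R2.Post Pool.Agent.Q216.ZD
open Nat.Partrec (Code)
open Pool.Agent.TH769.TP (Via)

/-- the generator with number `y.1` or its inverse -/
def lt {G : Type} [Group G] {d : ℕ} (g : Fin d → G) (y : Fin d × Bool) : G :=
  if y.2 then g y.1 else (g y.1)⁻¹

/-- `X <_T W_e^X <_T X'` and `(W_e^X)' ≡_T X'` -/
def PostLow (e : ℕ) (X : ℕ → Bool) : Prop :=
  TLe X (chr (WE X e)) ∧ ¬ TLe (chr (WE X e)) X ∧ TLe (chr (WE X e)) (jump X) ∧
    ¬ TLe (jump X) (chr (WE X e)) ∧ TLe (jump (chr (WE X e))) (jump X)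

/-- `W_e^X ≡_T W_e^Y` -/
def SameDeg (e : ℕ) (X Y : ℕ → Bool) : Prop :=
  TLe (chr (WE X e)) (chr (WE Y e)) ∧ TLe (chr (WE Y e)) (chr (WE X e))

theorem result (G : Type) [Group G] [MulAction G (ℕ → Bool)] (d : ℕ) (g : Fin d → G)
    (hg : ∀ c, ∃ i : Code, ∀ X : ℕ → Bool, Via i X (g c • X))
    (hC : ∃ C : ℕ, ∀ n, Nat.card {x : G | ∃ w : List (Fin d × Bool), w.length ≤ 2 * n ∧
      (w.map (lt g)).prod = x} ≤ C * Nat.card {x : G | ∃ w : List (Fin d × Bool), w.length ≤ n ∧
      (w.map (lt g)).prod = x}) :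
    (∃ e : ℕ, ∀ X : ℕ → Bool,
      (∀ x ∈ Subgroup.closure (Set.range g), ∀ y ∈ Subgroup.closure (Set.range g),
        y • X = X → y • x • X = x • X) →
      (ComputablePred fun w : List (Fin d × Bool) => (w.map (lt g)).prod • X = X) →
      PostLow e X ∧ ∀ x ∈ Subgroup.closure (Set.range g), SameDeg e X (x • X)) ∧
    ((ComputablePred fun w : List (Fin d × Bool) => (w.map (lt g)).prod = 1) →
      ∃ e : ℕ, (∀ X, PostLow e X) ∧
        ∀ X : ℕ → Bool, (∀ x ∈ Subgroup.closure (Set.range g), x • X = X → x = 1) →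
          ∀ x ∈ Subgroup.closure (Set.range g), SameDeg e X (x • X)) := by
  have e1 : lt g = gl g := by
    funext y
    unfold lt gl
    cases y.2 <;> rfl
  rw [e1] at hC ⊢
  exact ⟨gen_orb t_PROG t_ACT Pool.Agent.Q124.ZD.Patch.t_PATCH Pool.Agent.Q184.ZD.t_CNT
      Pool.Agent.Q125.ZD.t_FULL a_EQ a_STEP a_BACK a_INIT a_DEG a_INVC
      Pool.Agent.Q195.ZD.Grow.t_GROW G d g hg hC,
    free_orb t_PROG t_ACT Pool.Agent.Q124.ZD.Patch.t_PATCH Pool.Agent.Q184.ZD.t_CNT
      Pool.Agent.Q125.ZD.t_FULL a_EQ a_STEP a_BACK a_INIT a_DEG a_INVC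
      Pool.Agent.Q195.ZD.Grow.t_GROW G d g hg hC⟩

end Pool.Agent.Results.MP_57825d_lc.PolynomialGrowthOrbits
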