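import Pool.Agent.Q206.FS.Fin

set_option autoImplicit false

/-!
# Lachlan's theorem for two computable permutations, in single degrees

`W e X` is the set c.e. in `X` with index `e`, `J X` is the jump of `X`, `le Y X` is Turing
reducibility `Y ≤_T X` (Mathlib's `TuringReducible` of the characteristic functions), `ch P` is the
characteristic function of `P`, and `Red c X Y` says that the program `c` reduces `Y` to `X`; all of
them are defined in `Pool/Agent/H639/LU/Defs.lean`. `gen π ρ l` is the permutation `π`, `π⁻¹`, `ρ`,
`ρ⁻¹` for the letter `l = 0`, `1`, `2` and `≥ 3`, and `along π ρ w` is the product of the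
permutations of the letters of the word `w` (`Pool/Agent/Q206/FS/Hat.lean`).

Lachlan (1975) proved that there is no solution `W_e` to Post's problem for which a computable
function transforms the programs for `X ≡_T Y` into programs for `W_e^X ≡_T W_e^Y`. Here the same is
shown for two recursive isomorphisms of the oracle, and in each single Turing degree above `0'`: it
is impossible to have four programs which reduce `W_e^(X ∘ π)`, `W_e^(X ∘ π⁻¹)`, `W_e^(X ∘ ρ)` and
`W_e^(X ∘ ρ⁻¹)` to `W_e^X` for all `X` of the degree. The permutations `π` and `ρ` are primitive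
recursive, they do not depend on `e` (they are the left multiplications with two free generators, on
the free group of rank two times `ω`).

No hypothesis on `W_e` is necessary for the dichotomy in part 1: each degree above `0'` has a member
`X` such that `W_e^X ≤_T X`, or such that the sets `W_e^(X ∘ w)`, `w` a word in `π`, `ρ` and their
inverses, together compute `X'`, even by a many-one reduction which asks the question `n ∈ W_e^(X ∘
w)?` for a single number `n`.
-/

namespace Pool.Agent.Results.MP_57825d_lc.TwoPermutations

open Nat.Partrec (Code)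
open Pool.Agent.H639.LU Pool.Agent.Q206.FS

theorem result : ∃ π ρ : Equiv.Perm ℕ,
    (Primrec π ∧ Primrec π.symm ∧ Primrec ρ ∧ Primrec ρ.symm) ∧
    -- 1. the dichotomy
    (∀ (e : Code) (z : ℕ → Bool), ∃ X : ℕ → Bool,
      le z X ∧ (le (ch (J fun _ => false)) z → le X z) ∧
      (le (ch (W e X)) X ∨ ∃ (n : ℕ) (w : ℕ → List ℕ), Computable w ∧
        ∀ m, J X m ↔ W e (X ∘ along π ρ (w m)) n)) ∧
    -- 2. solutions to Post's problem in a degree above `0'` are not uniformly invariant
    (∀ (e : Code) (z : ℕ → Bool), le (ch (J fun _ => false)) z →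
      (∀ X, le z X → le X z → ¬ le (ch (W e X)) X ∧ ¬ le (ch (J X)) (ch (W e X))) →
      ∀ c₀ c₁ c₂ c₃ : Code, ∃ X, le z X ∧ le X z ∧ ¬ (
        Red c₀ (ch (W e X)) (ch (W e (X ∘ π))) ∧
        Red c₁ (ch (W e X)) (ch (W e (X ∘ π.symm))) ∧
        Red c₂ (ch (W e X)) (ch (W e (X ∘ ρ))) ∧
        Red c₃ (ch (W e X)) (ch (W e (X ∘ ρ.symm))))) :=
  ⟨pi1, pi2, ⟨tau_prim 0, tau_prim 1, tau_prim 2, tau_prim 3⟩, dichotomy, no_uniform⟩

end Pool.Agent.Results.MP_57825d_lc.TwoPermutations
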